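import Mathlib
import Pool.Agent.Helper292.SP.Lib

set_option autoImplicit false

open Cardinal Set Pool.Agent.Helper292.SP

namespace Pool.Agent.Results.MP_f21527_lc.ForcedFailure

/-- Over a ground model of `2 ^ ℵ₀ = ℵ₁`, `2 ^ ℵ₁ = ℵ₂` and `ℵ_ξ ^ ℵ₀ < ℵ_{ω₂}` for `ξ < ω₂` (for example a model of
GCH) there is a forcing notion `P` preserving all cardinals, such that in every extension by `P`: the continuum
hypothesis holds, `ρ ^ ℵ₀ < ℵ_{ω₂}` for all `ρ < ℵ_{ω₂}`, the relation `ℵ_{ω₂} → (ℵ_{ω₂}, ℵ₁)²` fails, and even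
`ℵ_{ω₂} → (ℵ_{ω₂}, ω + 1)²` fails. -/
theorem result (h1 : (2 : Cardinal.{0}) ^ (ℵ₀ : Cardinal.{0}) = ℵ₁)
    (h2 : (2 : Cardinal.{0}) ^ (ℵ₁ : Cardinal.{0}) = Cardinal.aleph 2)
    (h3 : ∀ ξ < (Cardinal.aleph.{0} 2).ord, Cardinal.aleph ξ ^ (ℵ₀ : Cardinal.{0}) <
      Cardinal.aleph (Cardinal.aleph.{0} 2).ord) :
    ∃ (K P : Type) (_ : LinearOrder K) (_ : WellFoundedLT K) (_ : Preorder P),
      Ordinal.type (α := K) (· < ·) = (Cardinal.aleph (Cardinal.aleph.{0} 2).ord).ord ∧ Nonempty P ∧ ∀ p : P,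
      (∀ X Y : Type, #X < #Y →
        p ∈ fnot (fex fun F : X → Y → Set P => fand (IsFun F) (Covers F fun _ => Set.univ))) ∧
      p ∈ CHHolds P ∧ p ∈ PowLT P K ℕ ∧ p ∈ fnot (Arrow P K (ℵ₁ : Cardinal.{0}).ord.ToType) ∧
      p ∈ fnot (ArrowT P K (WithTop ℕ)) :=
  main_A h1 h2 h3

end Pool.Agent.Results.MP_f21527_lc.ForcedFailure
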